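import Pool.Agent.Lib_helper40.MC.M

/-!
# exceptional curve s0: the certificate
-/

set_option autoImplicit false
set_option maxRecDepth 100000

namespace Pool.Agent.MCX6a

open Pool.Agent.KC72 Pool.Agent.MC

/-- the classes `(f, 1 - f)` -/
def x6a_cls : List (Mo × Mo) := [
  ((true, [.ofNat 3, .ofNat 2, .negSucc 1, .negSucc 1, .ofNat 1, .negSucc 3, .ofNat 3]), (false, [.ofNat 0, .ofNat 1, .negSucc 0, .ofNat 2, .negSucc 0, .negSucc 3, .ofNat 3])),
  ((false, [.negSucc 1, .ofNat 0, .ofNat 0, .ofNat 1, .ofNat 0, .ofNat 0, .ofNat 0]), (false, [.negSucc 1, .negSucc 0, .ofNat 0, .ofNat 1, .ofNat 1, .ofNat 0, .ofNat 0])),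
  ((false, [.ofNat 0, .negSucc 0, .ofNat 1, .ofNat 1, .negSucc 0, .ofNat 2, .negSucc 0]), (true, [.ofNat 2, .ofNat 0, .ofNat 1, .ofNat 0, .negSucc 1, .ofNat 0, .negSucc 0])),
  ((false, [.negSucc 1, .ofNat 0, .ofNat 0, .ofNat 1, .ofNat 0, .ofNat 2, .negSucc 0]), (false, [.negSucc 1, .ofNat 0, .negSucc 0, .ofNat 0, .ofNat 2, .ofNat 0, .ofNat 0])),
  ((true, [.ofNat 0, .ofNat 1, .ofNat 0, .negSucc 0, .ofNat 0, .ofNat 0, .ofNat 0]), (false, [.ofNat 1, .ofNat 1, .ofNat 1, .negSucc 0, .negSucc 0, .ofNat 0, .ofNat 0])),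
  ((false, [.ofNat 1, .ofNat 0, .ofNat 0, .ofNat 0, .ofNat 0, .ofNat 0, .ofNat 1]), (true, [.ofNat 0, .ofNat 0, .ofNat 1, .ofNat 0, .ofNat 0, .ofNat 0, .ofNat 1])),
  ((false, [.negSucc 0, .ofNat 0, .ofNat 0, .ofNat 1, .ofNat 0, .ofNat 0, .ofNat 1]), (true, [.negSucc 0, .ofNat 0, .ofNat 0, .ofNat 0, .ofNat 1, .ofNat 0, .ofNat 1])),
  ((false, [.negSucc 0, .negSucc 0, .ofNat 0, .ofNat 0, .ofNat 1, .ofNat 2, .negSucc 0]), (false, [.negSucc 0, .negSucc 0, .negSucc 0, .ofNat 0, .ofNat 2, .ofNat 0, .ofNat 0])),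
  ((false, [.ofNat 1, .negSucc 0, .ofNat 0, .negSucc 0, .ofNat 1, .ofNat 0, .ofNat 0]), (false, [.ofNat 0, .negSucc 0, .negSucc 0, .negSucc 0, .ofNat 2, .ofNat 0, .negSucc 0])),
  ((false, [.ofNat 0, .negSucc 0, .ofNat 1, .ofNat 1, .negSucc 0, .ofNat 0, .ofNat 0]), (true, [.ofNat 0, .ofNat 0, .ofNat 1, .ofNat 1, .negSucc 1, .ofNat 0, .negSucc 0])),
  ((false, [.ofNat 1, .ofNat 0, .negSucc 0, .negSucc 0, .ofNat 1, .ofNat 0, .ofNat 0]), (false, [.ofNat 0, .negSucc 0, .negSucc 0, .ofNat 0, .ofNat 1, .ofNat 0, .negSucc 0])),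
  ((false, [.ofNat 0, .ofNat 1, .negSucc 0, .ofNat 0, .ofNat 0, .negSucc 1, .ofNat 1]), (false, [.ofNat 1, .ofNat 0, .negSucc 0, .ofNat 0, .ofNat 0, .negSucc 1, .ofNat 0])),
  ((false, [.ofNat 1, .negSucc 0, .ofNat 0, .negSucc 0, .ofNat 1, .ofNat 2, .negSucc 0]), (true, [.ofNat 0, .negSucc 1, .negSucc 0, .ofNat 0, .ofNat 2, .ofNat 0, .negSucc 0])),
  ((false, [.ofNat 1, .ofNat 0, .ofNat 0, .ofNat 0, .ofNat 0, .negSucc 1, .ofNat 2]), (true, [.ofNat 0, .ofNat 1, .ofNat 0, .ofNat 0, .ofNat 0, .negSucc 1, .ofNat 2])),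
  ((false, [.ofNat 0, .ofNat 1, .negSucc 0, .ofNat 0, .ofNat 0, .ofNat 0, .ofNat 0]), (false, [.ofNat 0, .ofNat 0, .negSucc 0, .ofNat 0, .ofNat 0, .ofNat 0, .negSucc 1])),
  ((true, [.ofNat 0, .ofNat 1, .ofNat 0, .negSucc 0, .ofNat 0, .ofNat 2, .negSucc 0]), (false, [.ofNat 0, .ofNat 2, .ofNat 1, .ofNat 0, .negSucc 1, .ofNat 0, .ofNat 0]))]

/-- five term relations -/
def x6a_rels : List Rel := [
  ⟨(1, 0), (9, 1), (2, 1), none, some (3, 1)⟩,
  ⟨(1, 0), (4, 5), (10, 0), some (6, 3), some (5, 3)⟩,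
  ⟨(11, 0), (4, 5), (7, 0), some (6, 2), some (2, 3)⟩,
  ⟨(1, 0), (11, 5), (10, 5), some (7, 3), some (12, 3)⟩,
  ⟨(13, 0), (8, 5), (7, 5), some (6, 3), some (3, 3)⟩,
  ⟨(8, 0), (9, 5), (6, 0), some (10, 3), some (14, 3)⟩,
  ⟨(8, 0), (4, 1), (15, 1), none, some (12, 1)⟩]

/-- the left inverse -/
def x6a_G : List (List (ℕ × ℕ × ℤ)) := [
  [(0, 1, .ofNat 0), (0, 2, .ofNat 0), (0, 3, .negSucc 0), (1, 2, .ofNat 0), (1, 3, .negSucc 0), (1, 4, .ofNat 0), (2, 3, .ofNat 0), (2, 4, .ofNat 0), (3, 4, .ofNat 1)],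
  [(0, 1, .ofNat 0), (0, 2, .ofNat 0), (0, 3, .ofNat 6), (1, 2, .ofNat 0), (1, 3, .negSucc 5), (1, 4, .ofNat 0), (2, 3, .ofNat 0), (2, 4, .ofNat 0), (3, 4, .negSucc 5)],
  [(0, 1, .ofNat 0), (0, 2, .ofNat 0), (0, 3, .negSucc 2), (1, 2, .negSucc 11), (1, 3, .negSucc 2), (1, 4, .negSucc 11), (2, 3, .ofNat 0), (2, 4, .ofNat 0), (3, 4, .ofNat 3)],
  [(0, 1, .ofNat 12), (0, 2, .ofNat 0), (0, 3, .ofNat 0), (1, 2, .negSucc 11), (1, 3, .negSucc 23), (1, 4, .negSucc 35), (2, 3, .negSucc 11), (2, 4, .negSucc 23), (3, 4, .ofNat 0)],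
  [(0, 1, .ofNat 0), (0, 2, .ofNat 0), (0, 3, .negSucc 2), (1, 2, .negSucc 11), (1, 3, .negSucc 2), (1, 4, .ofNat 0), (2, 3, .ofNat 0), (2, 4, .ofNat 12), (3, 4, .ofNat 3)],
  [(0, 1, .ofNat 0), (0, 2, .negSucc 11), (0, 3, .ofNat 3), (1, 2, .negSucc 11), (1, 3, .ofNat 3), (1, 4, .ofNat 12), (2, 3, .ofNat 24), (2, 4, .ofNat 36), (3, 4, .negSucc 2)],
  [(0, 1, .negSucc 11), (0, 2, .ofNat 0), (0, 3, .negSucc 2), (1, 2, .ofNat 0), (1, 3, .ofNat 33), (1, 4, .ofNat 24), (2, 3, .ofNat 24), (2, 4, .ofNat 24), (3, 4, .negSucc 8)],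
  [(0, 1, .negSucc 11), (0, 2, .ofNat 0), (0, 3, .negSucc 5), (1, 2, .ofNat 0), (1, 3, .ofNat 18), (1, 4, .ofNat 12), (2, 3, .ofNat 0), (2, 4, .ofNat 0), (3, 4, .ofNat 6)],
  [(0, 1, .ofNat 12), (0, 2, .ofNat 0), (0, 3, .ofNat 6), (1, 2, .negSucc 11), (1, 3, .negSucc 17), (1, 4, .negSucc 23), (2, 3, .ofNat 0), (2, 4, .negSucc 11), (3, 4, .negSucc 5)]]

/-- the certificate -/
def x6a : RCert where
  n := 7
  r := 5
  m := 9
  N := 16
  cls := x6a_cls
  rels := x6a_rels
  kb := 6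
  ko := 3
  o := 4
  Om := 0x1420851440c61031040c30c31040c51441031041041860c41050841030c40c40c41041050c31040c4104104105143105104104104104105104104104104105104104104104105104104104104105104104104104105104104104104105104104104104105104104104104105
  DG := .ofNat 12
  G := x6a_G
  Q := [(0, 1, 2), (0, 1, 3), (0, 1, 4), (0, 1, 5), (0, 1, 6), (0, 2, 3), (0, 2, 4), (0, 2, 5), (0, 2, 6), (0, 3, 4), (0, 3, 5), (0, 3, 6), (0, 4, 5), (0, 4, 6), (1, 2, 3), (1, 2, 4), (1, 2, 5), (1, 2, 6), (1, 3, 4), (1, 3, 5), (1, 3, 6), (1, 4, 5), (1, 4, 6), (2, 3, 4), (2, 3, 5), (2, 3, 6), (2, 4, 5), (2, 4, 6), (3, 4, 5), (3, 4, 6)]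
  T := [(4, false), (5, false), (5, true), (1, false), (6, false), (6, true), (3, true), (8, false), (1, true), (2, true), (3, false), (7, true), (4, true), (7, false), (8, true), (2, false), (0, true), (0, false), (14, false), (14, true), (9, false), (9, true), (11, true), (13, false), (13, true), (10, false), (10, true), (11, false), (15, false)]

/-- the tables -/
def x6a_t : RTab where
  MA := 4
  B := 16384
  Z := 4096
  P2 := [(0, 1), (0, 2), (0, 3), (1, 2), (1, 3), (1, 4), (2, 3), (2, 4), (3, 4)]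
  MB := [.ofNat 0x100000000000000ffffffdfff7ffd,
    .ofNat 0xfffbffffffbffffff80020000003,
    .ofNat 0xffffffeffffffefff8001ffffffa,
    .negSucc 0x100040000000000ffffffefffffff,
    .negSucc 16389,
    .ofNat 0x100040000000000ffffffe0000003,
    .ofNat 0xfffffffffffffefffc0010000006,
    .negSucc 0x10003fffffffffffffffff0000002,
    .ofNat 0xffffffeffffffefff8001fffc000]
  PM := [.negSucc 0x5ff7ffffffffd003002ff4010000000005ff9ff9ffd004002ffa000000003002ffbffd005ffffffffd008ff3ffd005ffd002fff,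
    .ofNat 0xffffffffdfffffffff000000000ffffffffffffffffffffffffffffffffffff000000002000000001ffffffffe000,
    .ofNat 0xffbfffffdfff002002001000001fffffefffffe000002001000fffffeffdffefffffe000001000001ffe003ffe002001ffe000,
    .negSucc 0x1ffbfffffe000000004000000001fffffefffffdfff002000000ffffffffdfffffffffffffffffffffffe003ffc002001ffffff,
    .ofNat 0xfffffeffffffffffff000001000000ffffffffffff000001000000000000fffffefffffeffffffffffff000001000,
    .ofNat 0x1000000000000000000fffffffffffffffffffffffeffffffffffff000000,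
    .ofNat 0x1000000000ffffffffeffeffffff000000000001000000000000000000000000000000000000000000000000000fff000000000,
    .negSucc 0x1ffbfffffffff001000ffffffffffffffffffffffff002000ffffffffeffefff001fff000000fffffffff001fff000000ffffff,
    .ofNat 0xfffffffff000fff001fff000000fffffefffffefffffffff001000000ffefff000000fffffeffffff000fffffe001001001000]
  PR := [0x1180d250084b2880947006538d0,
    0x203020040000000100402018,
    0x487122108184488e06084e3498,
    0xe040101821162008000008c6c0,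
    0x220020208020200220800808,
    0x1000040000100100,
    0x40204820008000000000001800,
    0xe006400000170024b220059100,
    0x40862808820108320220843248]
  S := 30
  p := 5
  a := 10
  c := 7
  d := 3
  XQ := [[0x1002000000100300000000030040200c02008010100000804008000000400c030040400c04, 0xc000100000001004020080000001008040100200400010020080000002010020000200c01, 0x40300000004040000001002010030080100c040040000c0000c0000001008020100100801, 0x10000100000403004020040200004010020080100800008010000000003004040000300002, 0, 0x40200000004020000000802010030080300c040040000c0200c0000001008020080100801, 0],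
  [0x80400000010040080200001010020040100c0300000004020100000000008010040400003, 0xc04000000040100c03004040000201004008020000001000004000000000c0400c0101002, 0x80100000010020080200c01010020040300c0400000004020100000000008010000400403, 0, 0, 0x300000000000000000800000000000000000000000000200000000000000000c0000000, 0x403008000000300c030000200c03004020080100c00008040040000001008010080101003],
  [0xc020000200c0100000000010080400404010020080300c040100000002000000040300404, 0x20100000002004040040300c01008000100200400010020080000002010020000200c01, 0x40200c02004020000001004004010080300c000080100c040100000004008020080200401, 0xc0100c000080000804008040000300c030100201000010000000000001008030080100004, 0x8000040300c04000020000100c01010010040300c03008040040000002010040100201002, 0, 0],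
  [0x40000400000020000200000000000000000000000000000000004010040000000001, 0x8000040000c00010000000400003010000000000800000000080000001008040000100c02, 0x8000040000000000010000200004010000040400400010000080000000010040000300c02, 0, 0, 0, 0],
  [0x200400004020080000400004030100400c0200c0200c0100000000020080300c0100003, 0x80200000010040080200801004020040100c0300000004010100000000008010040400403, 0x802010020080000c00004010040200c020100200800004030040000003010030040401004, 0, 0, 0x200000000040000000c0000000000040000000000000010000000000000000100000000, 0x30040200c0000c02004040100001003010020040200c0100c0000000000040040000802],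
  [0x40300001004010000000402010030080400c04008030100000c010000200c030080100800, 0x2000000040300401010000040400800000040040101001008000000100c010080300c03, 0, 0x40000000004010100200c030000000001010030080400000008000000200c000100000c00, 0x40400002000030000300003008000080200c03010010080400800000030080200c0000c01, 0x300001000000000000800000000000000000000020000200000010000000000c0000000, 0],
  [0xc00008000100000c030000400002008000000200c00004000040000001008020000401001, 0, 0, 0, 0, 0, 0],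
  [0, 0, 0, 0, 0, 0, 0],
  [0x4000100000c0000403000030000300c00010010100000c000040000000000020000101000, 0, 0, 0, 0, 0, 0]]
  K := 33
  p' := 5
  a' := 13
  c' := 10
  d' := 3
  XT := [[0x20010008004003001800c0060010000004002001002000800200300200040020040000008006002000000c0040000018008006000, 0x2001000800200000080040020040010000002000001800c0020030020000000001002000800000300100080020040018004002002, 0x2001000000400100200100020010020008006000000800c008001000001000400300100040020030020008008000001800c002004, 0x3000000c000000000000000600300100000040020008000008002000000c004003000001000000000100000080020010010006002, 0x3001000800000100100080080030000008002000000000800200300100100020010020008002002000000c0080020010004008000, 0, 0x4002000c0040040000000002003000800c00600200100100040010008010006004002000400800400080040060030008000002001],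
  [0x200000040080000018010006002001800c0000000018004000003002000000400200180040060000018010008002, 0x20008004000000000001000600300180080000000010000002004000001000400200000040000010018010000001, 0x8000004000001000000000100000100000000020010002002000801000000100100000040020018010004003, 0x40000008006000000800c0020040008004000000000800800000100180000080040008008002000001000c006004, 0x20008004000000000001000600300180080000000010000002004000001000400300000040000010010010000001, 0, 0x20004006000001800000000400000040000000008004008003002000400000000180000060030008000006001],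
  [0xc00800300100080040000010008000000001800c006001001000c00800300100040000040000010008003, 0x1800400600000200040080000018000000000000800400800400200040060010020008006003000000c006003, 0x1800400600400100040080000018004000000000800c0040040020004006001001000c0020030000008006004, 0x10020010000000002001000000000080040020040020000004000002000c0000000000008000000, 0x80000000010020010000000002001000000000000040000040000000004000002000c0000000000008000001, 0x80040060020000004008000001000c0000000008000004004001000400600100000100080030000004006004, 0x8008002003001800800600000200080000000010008006003001800800200200180100020010000004002003],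
  [0x2000000000000000000000000000004008000000000000000000200000080000000000000000, 0x4000000000000000000000000000000004000000000000000000000000000000000000000000000, 0x100000000000000000000000000000c004000000000000000000100100040000000000000000, 0x1800000000000000000000000000008006000000000400000000180000060000000000000000, 0, 0, 0],
  [0x1000000000000000000000000000000000000004, 1, 0, 0, 0, 0, 0],
  [8192, 0, 0x4000000, 0, 0, 0, 0],
  [0x80000000000000000, 0, 0, 0x80010000000000000, 0, 0, 0],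
  [0x8000000000000000000000000000000000000000000, 0, 0x2000002000000000000000000000000000000000000, 0, 0, 0, 0],
  [0x10000000000000000000000080000000000000000000000, 0x10000000000000000000000000000000000000000000000, 0, 0, 0, 0, 0]]

/-- an explicit class -/
def x6a_l0 : List Tm := [
  ⟨13, 0, [.ofNat 0, .ofNat 8, .negSucc 1, .negSucc 7, .ofNat 4, .ofNat 0, .ofNat 0]⟩,
  ⟨9, 0, [.ofNat 0, .ofNat 0, .ofNat 3, .ofNat 6, .negSucc 7, .ofNat 0, .ofNat 0]⟩,
  ⟨6, 0, [.negSucc 1, .ofNat 6, .negSucc 3, .ofNat 0, .ofNat 0, .ofNat 0, .ofNat 0]⟩,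
  ⟨10, 0, [.negSucc 4, .ofNat 0, .ofNat 0, .ofNat 3, .negSucc 0, .ofNat 0, .negSucc 3]⟩,
  ⟨0, 0, [.ofNat 1, .negSucc 0, .ofNat 0, .ofNat 0, .ofNat 0, .ofNat 0, .ofNat 0]⟩]

/-- its coordinates -/
def x6a_v0 : List (List ℤ) := [
  [.ofNat 1, .negSucc 0, .ofNat 0, .ofNat 0, .ofNat 0, .ofNat 0, .ofNat 0],
  [.ofNat 5, .ofNat 0, .negSucc 2, .negSucc 8, .ofNat 9, .ofNat 0, .ofNat 4],
  [.ofNat 0, .ofNat 0, .ofNat 3, .ofNat 6, .negSucc 7, .ofNat 0, .ofNat 0],
  [.ofNat 0, .negSucc 7, .ofNat 5, .ofNat 14, .negSucc 11, .ofNat 0, .ofNat 0],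
  [.ofNat 5, .ofNat 0, .ofNat 0, .negSucc 2, .ofNat 1, .ofNat 0, .ofNat 4],
  [.ofNat 5, .ofNat 0, .ofNat 0, .negSucc 2, .ofNat 1, .ofNat 0, .ofNat 4],
  [.negSucc 6, .ofNat 14, .negSucc 5, .negSucc 4, .ofNat 3, .ofNat 0, .negSucc 3],
  [.ofNat 0, .ofNat 8, .negSucc 1, .negSucc 7, .ofNat 4, .ofNat 0, .ofNat 0],
  [.ofNat 0, .negSucc 7, .ofNat 2, .ofNat 8, .negSucc 3, .ofNat 0, .ofNat 0]]

/-- an explicit class -/
def x6a_l1 : List Tm := [
  ⟨6, 0, [.ofNat 27, .ofNat 9, .negSucc 8, .ofNat 0, .negSucc 17, .negSucc 23, .ofNat 0]⟩,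
  ⟨7, 0, [.ofNat 0, .ofNat 0, .ofNat 0, .ofNat 0, .ofNat 0, .negSucc 11, .ofNat 0]⟩,
  ⟨10, 0, [.ofNat 0, .ofNat 0, .negSucc 8, .ofNat 9, .ofNat 0, .negSucc 23, .ofNat 9]⟩,
  ⟨0, 0, [.ofNat 0, .negSucc 2, .ofNat 0, .ofNat 0, .ofNat 0, .ofNat 4, .negSucc 5]⟩]

/-- its coordinates -/
def x6a_v1 : List (List ℤ) := [
  [.ofNat 0, .negSucc 2, .ofNat 0, .ofNat 0, .ofNat 0, .ofNat 4, .negSucc 5],
  [.ofNat 0, .ofNat 0, .ofNat 9, .negSucc 8, .ofNat 0, .ofNat 24, .negSucc 8],
  [.ofNat 0, .ofNat 0, .ofNat 0, .ofNat 0, .ofNat 0, .ofNat 0, .ofNat 0],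
  [.ofNat 0, .ofNat 0, .ofNat 0, .ofNat 0, .ofNat 0, .ofNat 0, .ofNat 0],
  [.ofNat 0, .ofNat 0, .ofNat 9, .negSucc 8, .ofNat 0, .ofNat 24, .negSucc 8],
  [.ofNat 0, .ofNat 0, .ofNat 9, .negSucc 8, .ofNat 0, .ofNat 24, .negSucc 8],
  [.ofNat 27, .ofNat 9, .negSucc 17, .ofNat 9, .negSucc 17, .negSucc 47, .ofNat 9],
  [.ofNat 0, .ofNat 0, .ofNat 0, .ofNat 0, .ofNat 0, .negSucc 11, .ofNat 0],
  [.ofNat 0, .ofNat 0, .ofNat 0, .ofNat 0, .ofNat 0, .ofNat 0, .ofNat 0]]

/-- an explicit class -/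
def x6a_l2 : List Tm := [
  ⟨6, 0, [.ofNat 0, .ofNat 1, .negSucc 0, .ofNat 0, .ofNat 1, .ofNat 0, .ofNat 3]⟩,
  ⟨7, 0, [.negSucc 3, .negSucc 1, .ofNat 0, .ofNat 4, .ofNat 0, .ofNat 0, .ofNat 0]⟩,
  ⟨10, 0, [.ofNat 0, .ofNat 0, .ofNat 1, .negSucc 0, .ofNat 0, .ofNat 0, .negSucc 0]⟩,
  ⟨0, 0, [.ofNat 2, .ofNat 1, .ofNat 0, .negSucc 1, .ofNat 0, .ofNat 0, .ofNat 0]⟩]

/-- its coordinates -/
def x6a_v2 : List (List ℤ) := [
  [.ofNat 2, .ofNat 1, .ofNat 0, .negSucc 1, .ofNat 0, .ofNat 0, .ofNat 0],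
  [.ofNat 0, .ofNat 0, .negSucc 0, .ofNat 1, .ofNat 0, .ofNat 0, .ofNat 1],
  [.ofNat 0, .ofNat 0, .ofNat 0, .ofNat 0, .ofNat 0, .ofNat 0, .ofNat 0],
  [.ofNat 0, .ofNat 0, .ofNat 0, .ofNat 0, .ofNat 0, .ofNat 0, .ofNat 0],
  [.ofNat 0, .ofNat 0, .negSucc 0, .ofNat 1, .ofNat 0, .ofNat 0, .ofNat 1],
  [.ofNat 0, .ofNat 0, .negSucc 0, .ofNat 1, .ofNat 0, .ofNat 0, .ofNat 1],
  [.ofNat 0, .ofNat 1, .ofNat 0, .negSucc 0, .ofNat 1, .ofNat 0, .ofNat 2],
  [.negSucc 3, .negSucc 1, .ofNat 0, .ofNat 4, .ofNat 0, .ofNat 0, .ofNat 0],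
  [.ofNat 0, .ofNat 0, .ofNat 0, .ofNat 0, .ofNat 0, .ofNat 0, .ofNat 0]]

/-- an explicit class -/
def x6a_l3 : List Tm := [
  ⟨13, 0, [.ofNat 0, .ofNat 9, .ofNat 0, .negSucc 5, .ofNat 0, .negSucc 1, .ofNat 0]⟩,
  ⟨1, 0, [.negSucc 5, .ofNat 0, .ofNat 3, .ofNat 0, .ofNat 0, .ofNat 4, .negSucc 2]⟩,
  ⟨11, 0, [.ofNat 0, .ofNat 0, .ofNat 0, .ofNat 6, .negSucc 5, .negSucc 3, .ofNat 0]⟩,
  ⟨9, 0, [.ofNat 0, .ofNat 9, .ofNat 0, .ofNat 3, .negSucc 8, .negSucc 3, .ofNat 0]⟩,
  ⟨6, 0, [.ofNat 0, .ofNat 0, .ofNat 0, .ofNat 0, .ofNat 0, .ofNat 8, .negSucc 5]⟩,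
  ⟨10, 0, [.ofNat 0, .ofNat 0, .ofNat 0, .ofNat 0, .ofNat 0, .ofNat 0, .negSucc 2]⟩,
  ⟨0, 0, [.ofNat 1, .negSucc 1, .ofNat 0, .ofNat 0, .ofNat 1, .ofNat 0, .ofNat 0]⟩]

/-- its coordinates -/
def x6a_v3 : List (List ℤ) := [
  [.ofNat 1, .negSucc 1, .ofNat 0, .ofNat 0, .ofNat 1, .ofNat 0, .ofNat 0],
  [.negSucc 5, .negSucc 8, .ofNat 3, .negSucc 2, .ofNat 9, .ofNat 8, .ofNat 0],
  [.ofNat 0, .ofNat 9, .ofNat 0, .negSucc 2, .negSucc 2, .ofNat 0, .ofNat 0],
  [.ofNat 0, .ofNat 0, .ofNat 0, .ofNat 9, .negSucc 8, .negSucc 1, .ofNat 0],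
  [.ofNat 0, .ofNat 0, .ofNat 0, .negSucc 5, .ofNat 6, .ofNat 4, .ofNat 3],
  [.ofNat 0, .ofNat 0, .ofNat 0, .ofNat 0, .ofNat 0, .ofNat 0, .ofNat 3],
  [.ofNat 0, .ofNat 9, .ofNat 0, .negSucc 11, .ofNat 6, .ofNat 10, .negSucc 8],
  [.ofNat 0, .ofNat 9, .ofNat 0, .negSucc 11, .ofNat 6, .ofNat 2, .ofNat 0],
  [.ofNat 0, .negSucc 8, .ofNat 0, .ofNat 6, .ofNat 0, .ofNat 2, .ofNat 0]]

/-- the explicit classes -/
def x6a_ll : List (List Tm) := [x6a_l0, x6a_l1, x6a_l2, x6a_l3]

/-- their coordinates -/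
def x6a_vl : List (List (List ℤ)) := [x6a_v0, x6a_v1, x6a_v2, x6a_v3]

end Pool.Agent.MCX6a
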