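import Pool.Agent.Lib_helper40.MC.X6a.Q
import Pool.Agent.Lib_helper40.MC.X6a.T

/-!
# exceptional curve s0: all checks
-/

set_option autoImplicit false
set_option maxRecDepth 100000

namespace Pool.Agent.MCX6a

open Pool.Agent.KC72 Pool.Agent.MC

theorem x6a_0 : NumX x6a x6a_t x6a_ll.length := by decide +kernel

theorem x6a_om : xm x6a.kb x6a.ko (x6a.m * x6a.N) x6a.Om = true := by decide +kernel

theorem x6a_b : cB x6a = true := by decide +kernel

theorem x6a_r0 : blk (cR x6a) x6a.rels 60 0 = true := by decide +kernel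

theorem x6a_r' : ∀ k < 1, blk (cR x6a) x6a.rels 60 k = true
  | 0, _ => x6a_r0
  | k + 1, h => absurd h (by omega)

theorem x6a_g : allI (fun c g => cG x6a.DG x6a_t.B x6a_t.MA x6a_t.P2 x6a_t.MB c g) x6a.G 0 = true := by decide +kernel

theorem x6a_g' : x6a.toCert.chk3' = true := by decide +kernel

theorem x6a_k1 : (x6a.cls.take x6a.m).map (prF x6a_t.p x6a.n x6a.r) = x6a_t.PR := by decide +kernel

theorem x6a_k2 : (x6a.cls.take x6a.m).map (pkw (Int.ofNat x6a_t.Z) (Int.ofNat (Nat.pow x6a_t.Z x6a.n)) x6a.r) = x6a_t.PM := by decide +kernel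

theorem x6a_k3 : x6a_t.P2.map (fun x => pmb (Int.ofNat x6a_t.B) x.1 x.2 (x6a.cls.take x6a.m)) = x6a_t.MB := by decide +kernel

theorem x6a_e : x6a.cls.all (fun e => bdE x6a_t.MA x6a.n e.1.2 && bdE x6a_t.MA x6a.n e.2.2) = true := by decide +kernel

theorem x6a_xq : x6a_t.XQ.all (fun X => X.all (xm x6a_t.a x6a_t.d x6a_t.S)) = true := by decide +kernel

theorem x6a_xt : x6a_t.XT.all (fun X => X.all (xm x6a_t.a' x6a_t.d' x6a_t.K)) = true := by decide +kernel

theorem x6a_d0_0 : blk (cD x6a x6a_v0) x6a.Q 40 0 = true := by decide +kernel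

theorem x6a_d0_' : ∀ k < 1, blk (cD x6a x6a_v0) x6a.Q 40 k = true
  | 0, _ => x6a_d0_0
  | k + 1, h => absurd h (by omega)

theorem x6a_d1_0 : blk (cD x6a x6a_v1) x6a.Q 40 0 = true := by decide +kernel

theorem x6a_d1_' : ∀ k < 1, blk (cD x6a x6a_v1) x6a.Q 40 k = true
  | 0, _ => x6a_d1_0
  | k + 1, h => absurd h (by omega)

theorem x6a_d2_0 : blk (cD x6a x6a_v2) x6a.Q 40 0 = true := by decide +kernel

theorem x6a_d2_' : ∀ k < 1, blk (cD x6a x6a_v2) x6a.Q 40 k = true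
  | 0, _ => x6a_d2_0
  | k + 1, h => absurd h (by omega)

theorem x6a_d3_0 : blk (cD x6a x6a_v3) x6a.Q 40 0 = true := by decide +kernel

theorem x6a_d3_' : ∀ k < 1, blk (cD x6a x6a_v3) x6a.Q 40 k = true
  | 0, _ => x6a_d3_0
  | k + 1, h => absurd h (by omega)

theorem x6a_x : allI (fun s L => cL x6a x6a_t (x6a_vl.getD s []) s L) x6a_ll 0 = true := by decide +kernel

/-- all checks -/
theorem x6a_ok : ROkX x6a x6a_ll :=
  rOkX_of (A := x6a_t) (VL := x6a_vl) (l4 := 60) (n4 := 1) (lQ := 40) (nQ := 1) (lT := 40) (nT := 1) rfl x6a_0 x6a_om x6a_b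
    (by decide) (by decide +kernel) x6a_r' x6a_g x6a_g' ⟨x6a_k1, x6a_k2, x6a_k3⟩ x6a_e x6a_xq x6a_xt (by decide) (by decide +kernel) x6a_q'
    (by decide) (by decide +kernel) x6a_t' x6a_x
    (List.forall_mem_cons.2 ⟨x6a_d0_', (List.forall_mem_cons.2 ⟨x6a_d1_', (List.forall_mem_cons.2 ⟨x6a_d2_', (List.forall_mem_cons.2 ⟨x6a_d3_', (List.forall_mem_nil _)⟩)⟩)⟩)⟩)

end Pool.Agent.MCX6a
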